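import Mathlib

set_option autoImplicit false

namespace Pool.Agent.Results.MP_8dadf2_al.Counter

lemma pw {R : Type} [Ring R] (a b y q : R) (h : b * a = q) (n : ℕ) :
    (a * y * b) ^ (n + 1) = a * (y * (q * y) ^ n) * b := by
  induction n with
  | zero => simp
  | succ n ih => rw [pow_succ, ih, pow_succ, ← h]; simp only [mul_assoc]

def fam {R : Type} [Ring R] (x y : R) : Fin 6 → R :=
  ![(x * x - x) * y * (x + 1), (x * x - 1) * y * x, (x * x + x) * y * (x - 1),
    x * y * (x * x - 1), (x - 1) * y * (x * x + x), (x + 1) * y * (x * x - x)]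

def co : Fin 6 → ℤ := ![1, -2, 1, -2, 1, 1]

lemma rel {R : Type} [Ring R] (x y : R) (n : ℕ) : ∑ i, co i • fam x y i ^ (n + 1) = 0 := by
  simp only [Fin.sum_univ_six, fam, co, Matrix.cons_val]
  rw [pw _ _ y (x * x * x - x) (by noncomm_ring), pw _ _ y (x * x * x - x) (by noncomm_ring),
    pw _ _ y (x * x * x - x) (by noncomm_ring), pw _ _ y (x * x * x - x) (by noncomm_ring),
    pw _ _ y (x * x * x - x) (by noncomm_ring), pw _ _ y (x * x * x - x) (by noncomm_ring)]
  generalize y * ((x * x * x - x) * y) ^ n = Y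
  noncomm_ring

abbrev M := Matrix (Fin 2) (Fin 2) ℤ

def mats : Bool → M := fun b => if b then !![2, 0; 0, 4] else !![0, 1; 0, 0]

def vals : Fin 6 → ℤ := ![10, 12, 18, 30, 20, 36]

lemma ev1 : ∀ i, fam (mats true) (mats false) i 0 1 = vals i := by decide +kernel

lemma ev2 (i : Fin 6) : FreeAlgebra.lift ℤ mats
    (fam (FreeAlgebra.ι ℤ true) (FreeAlgebra.ι ℤ false) i) = fam (mats true) (mats false) i := by
  fin_cases i <;> simp [fam]

theorem result (p : ℕ) (hp : p.Prime) (_ : Odd p) :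
    ∃ (S : Type) (r : ℕ) (f : Fin r → FreeAlgebra ℤ S) (c : Fin r → ℤ),
      Function.Injective f ∧ (∀ i, f i ≠ 0) ∧ (∀ i j, i ≠ j → f i ≠ - f j) ∧ c ≠ 0 ∧
      ∀ k : ℕ, ∑ i, c i • f i ^ (p ^ k) = 0 := by
  have key : ∀ i, FreeAlgebra.lift ℤ mats
      (fam (FreeAlgebra.ι ℤ true) (FreeAlgebra.ι ℤ false) i) 0 1 = vals i := fun i => by
    rw [ev2, ev1]
  refine ⟨Bool, 6, fam (FreeAlgebra.ι ℤ true) (FreeAlgebra.ι ℤ false), co, fun i j h => ?_,
    fun i h => ?_, fun i j _ h => ?_, by decide, fun k => ?_⟩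
  · have h1 := key i
    rw [h, key j] at h1
    exact (by decide : ∀ i j, vals j = vals i → i = j) i j h1
  · have h1 := key i
    rw [h, map_zero] at h1
    exact (by decide : ∀ i, 0 ≠ vals i) i h1
  · have h1 := key i
    rw [h, map_neg, Matrix.neg_apply, key j] at h1
    exact (by decide : ∀ i j, - vals j ≠ vals i) i j h1
  · obtain ⟨n, hn⟩ := Nat.exists_eq_succ_of_ne_zero (pow_ne_zero k hp.ne_zero)
    rw [hn]
    exact rel _ _ n

end Pool.Agent.Results.MP_8dadf2_al.Counter
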